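import Mathlib

namespace Pool.Agent.Lib.MP_4e7873_nt

open Finset Real

noncomputable def ee (t : ℝ) : ℂ := Complex.exp (2 * π * Complex.I * t)

lemma ee_add (s t : ℝ) : ee (s + t) = ee s * ee t := by
  unfold ee; rw [← Complex.exp_add]; congr 1; push_cast; ring

lemma ee_zero : ee 0 = 1 := by simp [ee]

lemma ee_eq (t : ℝ) : ee t = Complex.exp (Complex.I * ((2 * π * t : ℝ) : ℂ)) := by
  unfold ee; congr 1; push_cast; ring

lemma norm_ee (t : ℝ) : ‖ee t‖ = 1 := by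
  rw [ee_eq]; exact Complex.norm_exp_I_mul_ofReal _

lemma ee_int (n : ℤ) : ee n = 1 := by
  unfold ee
  have := Complex.exp_int_mul_two_pi_mul_I n
  rw [← this]; congr 1; push_cast; ring

lemma ee_add_int (t : ℝ) (n : ℤ) : ee (t + n) = ee t := by
  rw [ee_add, ee_int, mul_one]

lemma norm_ee_sub_one_le (t : ℝ) : ‖ee t - 1‖ ≤ 2 * π * |t| := by
  rw [ee_eq]
  refine Real.norm_exp_I_mul_ofReal_sub_one_le.trans (le_of_eq ?_)
  rw [Real.norm_eq_abs, abs_mul, abs_of_pos (by positivity : (0:ℝ) < 2 * π)]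

lemma norm_ee_sub_ee_le (s t : ℝ) : ‖ee s - ee t‖ ≤ 2 * π * |s - t| := by
  have : ee s - ee t = ee t * (ee (s - t) - 1) := by
    rw [mul_sub, ← ee_add]; simp
  rw [this, norm_mul, norm_ee, one_mul]; exact norm_ee_sub_one_le _

lemma four_mul_le_norm_ee_sub_one (t : ℝ) (ht : |t| ≤ 1 / 2) : 4 * |t| ≤ ‖ee t - 1‖ := by
  rw [ee_eq, Complex.norm_exp_I_mul_ofReal_sub_one, Real.norm_eq_abs, abs_mul]
  have h1 : |2 * π * t / 2| ≤ π / 2 := by
    rw [show 2 * π * t / 2 = π * t by ring, abs_mul, abs_of_pos pi_pos]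
    nlinarith [pi_pos]
  have h2 := Real.mul_abs_le_abs_sin h1
  have h3 : 2 / π * |2 * π * t / 2| = 2 * |t| := by
    rw [show 2 * π * t / 2 = π * t by ring, abs_mul, abs_of_pos pi_pos]
    field_simp
  rw [h3] at h2
  rw [abs_of_pos (by norm_num : (0:ℝ) < 2)]
  linarith

/-- geometric sum -/
noncomputable def DD (m : ℕ) (θ : ℝ) : ℝ := ‖∑ u ∈ range m, ee (θ * u)‖

lemma DD_nonneg (m : ℕ) (θ : ℝ) : 0 ≤ DD m θ := norm_nonneg _

lemma DD_le (m : ℕ) (θ : ℝ) : DD m θ ≤ m := by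
  unfold DD
  refine (norm_sum_le _ _).trans ?_
  simp [norm_ee]

lemma geom_mul (m : ℕ) (θ : ℝ) :
    (∑ u ∈ range m, ee (θ * u)) * (ee θ - 1) = ee (θ * m) - 1 := by
  induction m with
  | zero => simp [ee_zero]
  | succ m ih =>
    rw [sum_range_succ, add_mul, ih]
    push_cast
    rw [show θ * ((m:ℝ) + 1) = θ * m + θ by ring, ee_add]; ring

lemma DD_mul_le (m : ℕ) (θ d : ℝ) (h : ∀ n : ℤ, d ≤ |θ - n|) : DD m θ * (2 * d) ≤ 1 := by
  have h1 := geom_mul m θ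
  have h2 : DD m θ * ‖ee θ - 1‖ ≤ 2 := by
    unfold DD
    rw [← norm_mul, h1]
    refine (norm_sub_le _ _).trans ?_
    rw [norm_ee]; norm_num
  have h3 : 4 * |θ - round θ| ≤ ‖ee θ - 1‖ := by
    have := four_mul_le_norm_ee_sub_one (θ - round θ) (abs_sub_round θ)
    rwa [sub_eq_add_neg θ, ← Int.cast_neg, ee_add_int, Int.cast_neg, ← sub_eq_add_neg] at this
  have h4 := h (round θ)
  have h5 := DD_nonneg m θ
  nlinarith

lemma abel (c w : ℕ → ℂ) (B : ℝ) (m : ℕ) (h : ∀ k ≤ m, ‖∑ u ∈ range k, c u‖ ≤ B) :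
    ‖∑ u ∈ range m, c u * w u - (∑ u ∈ range m, c u) * w m‖
      ≤ B * ∑ u ∈ range m, ‖w (u + 1) - w u‖ := by
  induction m with
  | zero => simp
  | succ m ih =>
    have ih' := ih (fun k hk => h k (by omega))
    have e : ∑ u ∈ range (m + 1), c u * w u - (∑ u ∈ range (m + 1), c u) * w (m + 1)
        = (∑ u ∈ range m, c u * w u - (∑ u ∈ range m, c u) * w m)
          - (∑ u ∈ range (m + 1), c u) * (w (m + 1) - w m) := by
      rw [sum_range_succ, sum_range_succ]; ring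
    rw [e, sum_range_succ (fun u => ‖w (u + 1) - w u‖), mul_add]
    refine (norm_sub_le _ _).trans (add_le_add ih' ?_)
    rw [norm_mul]
    exact mul_le_mul_of_nonneg_right (h _ le_rfl) (norm_nonneg _)

lemma abel_quad (c : ℕ → ℂ) (B γ : ℝ) (m : ℕ) (hγ : |γ| * (m:ℝ) ^ 2 ≤ 1)
    (h : ∀ k ≤ m, ‖∑ u ∈ range k, c u‖ ≤ B) :
    ‖∑ u ∈ range m, c u * ee (γ * (u:ℝ) ^ 2)‖ ≤ 8 * B := by
  have hB : 0 ≤ B := by simpa using h 0 (by omega)
  have h1 := abel c (fun u => ee (γ * (u:ℝ) ^ 2)) B m h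
  have h2 : ∀ k : ℕ, ∑ u ∈ range k, ‖ee (γ * ((u + 1 : ℕ):ℝ) ^ 2) - ee (γ * (u:ℝ) ^ 2)‖
      ≤ 2 * π * (|γ| * (k:ℝ) ^ 2) := by
    intro k
    induction k with
    | zero => simp
    | succ k ih =>
      rw [sum_range_succ]
      have := norm_ee_sub_ee_le (γ * ((k + 1 : ℕ):ℝ) ^ 2) (γ * (k:ℝ) ^ 2)
      rw [show γ * ((k + 1 : ℕ):ℝ) ^ 2 - γ * (k:ℝ) ^ 2 = γ * (2 * k + 1) by push_cast; ring,
        abs_mul, abs_of_nonneg (by positivity : (0:ℝ) ≤ 2 * k + 1)] at this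
      push_cast at *
      nlinarith
  have h3 : ‖(∑ u ∈ range m, c u) * ee (γ * (m:ℝ) ^ 2)‖ ≤ B := by
    rw [norm_mul, norm_ee, mul_one]; exact h m le_rfl
  have h4 := norm_add_le (∑ u ∈ range m, c u * ee (γ * (u:ℝ) ^ 2)
    - (∑ u ∈ range m, c u) * ee (γ * (m:ℝ) ^ 2)) ((∑ u ∈ range m, c u) * ee (γ * (m:ℝ) ^ 2))
  rw [sub_add_cancel] at h4
  have h5 : B * ∑ u ∈ range m, ‖ee (γ * ((u + 1 : ℕ):ℝ) ^ 2) - ee (γ * (u:ℝ) ^ 2)‖ ≤ B * 7 := by
    refine mul_le_mul_of_nonneg_left ((h2 m).trans ?_) hB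
    have := pi_lt_d2
    nlinarith [pi_pos]
  linarith

/-! Gauss sums -/

section gauss
variable {q : ℕ} [NeZero q]

lemma psi_int (j : ℤ) : ZMod.stdAddChar (j : ZMod q) = ee (j / q) := by
  rw [ZMod.stdAddChar_coe]; unfold ee; congr 1; push_cast; ring

lemma norm_psi (x : ZMod q) : ‖ZMod.stdAddChar x‖ = 1 := by
  rw [ZMod.stdAddChar_apply]; simp

lemma card_two_torsion : (univ.filter (fun h : ZMod q => h * 2 = 0)).card ≤ 2 := by
  have hsub : (univ.filter (fun h : ZMod q => h * 2 = 0)) ⊆ {0, ((q / 2 : ℕ) : ZMod q)} := by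
    intro h hh
    rw [mem_filter] at hh
    have h1 : ((h.val * 2 : ℕ) : ZMod q) = 0 := by push_cast; simpa using hh.2
    rw [ZMod.natCast_eq_zero_iff] at h1
    have h2 := ZMod.val_lt h
    obtain ⟨c, hc⟩ := h1
    have hc2 : c < 2 := by
      by_contra hcon
      have : q * 2 ≤ q * c := Nat.mul_le_mul_left _ (by omega)
      omega
    rw [mem_insert, mem_singleton]
    interval_cases c
    · left
      have : h.val = 0 := by omega
      exact (ZMod.val_eq_zero h).1 this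
    · right
      have : h.val = q / 2 := by omega
      rw [← this]; simp
  exact (card_le_card hsub).trans (card_le_two)

noncomputable def GG (a b : ZMod q) : ℂ := ∑ r : ZMod q, ZMod.stdAddChar (a * r ^ 2 - r * b)

lemma norm_GG_sq (a b : ZMod q) (ha : IsUnit a) : ‖GG a b‖ ^ 2 ≤ 2 * q := by
  set ψ : AddChar (ZMod q) ℂ := ZMod.stdAddChar with hψ
  have hconj : ∀ x : ZMod q, (starRingEnd ℂ) (ψ x) = ψ (-x) := by
    intro x
    rw [AddChar.map_neg_eq_inv, Complex.inv_def, Complex.normSq_eq_norm_sq, hψ, norm_psi]; simp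
  have e1 : ((‖GG a b‖ ^ 2 : ℝ) : ℂ) = ∑ h : ZMod q, ψ (a * h ^ 2 - h * b) *
      ∑ r : ZMod q, ψ (r * (a * (h * 2))) := by
    rw [← Complex.normSq_eq_norm_sq, Complex.normSq_eq_conj_mul_self]
    unfold GG
    rw [map_sum, sum_mul]
    simp_rw [mul_sum]
    rw [sum_comm (s := univ) (t := univ) (f := fun h r => ψ (a * h ^ 2 - h * b) * ψ (r * (a * (h * 2))))]
    refine sum_congr rfl (fun r _ => ?_)
    rw [← Equiv.sum_comp (Equiv.addLeft r)]
    refine sum_congr rfl (fun h _ => ?_)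
    rw [← hψ, hconj, ← AddChar.map_add_eq_mul, ← AddChar.map_add_eq_mul]
    congr 1
    simp only [Equiv.coe_addLeft]
    ring
  have e2 : ∀ h : ZMod q, ‖ψ (a * h ^ 2 - h * b) * ∑ r : ZMod q, ψ (r * (a * (h * 2)))‖
      = if h * 2 = 0 then (q:ℝ) else 0 := by
    intro h
    rw [norm_mul, hψ, norm_psi, one_mul, AddChar.sum_mulShift _ (ZMod.isPrimitive_stdAddChar q)]
    simp only [ha.mul_right_eq_zero]
    split_ifs <;> simp
  have e3 : ‖GG a b‖ ^ 2 ≤ ∑ h : ZMod q, if h * 2 = 0 then (q:ℝ) else 0 := by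
    have : ‖GG a b‖ ^ 2 = ‖((‖GG a b‖ ^ 2 : ℝ) : ℂ)‖ := by
      rw [Complex.norm_real, Real.norm_eq_abs, abs_of_nonneg (by positivity)]
    rw [this, e1]
    refine (norm_sum_le _ _).trans (le_of_eq ?_)
    exact sum_congr rfl (fun h _ => e2 h)
  refine e3.trans ?_
  rw [← sum_filter, sum_const, nsmul_eq_mul]
  have : ((univ.filter (fun h : ZMod q => h * 2 = 0)).card : ℝ) ≤ 2 := by
    exact_mod_cast card_two_torsion
  exact mul_le_mul_of_nonneg_right this (by positivity)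

lemma gauss_expand (a n : ZMod q) :
    (q:ℂ) * ZMod.stdAddChar (a * n ^ 2) = ∑ b : ZMod q, GG a b * ZMod.stdAddChar (b * n) := by
  unfold GG
  simp_rw [sum_mul]
  rw [sum_comm]
  have : ∀ r : ZMod q, ∑ b : ZMod q, ZMod.stdAddChar (a * r ^ 2 - r * b) * ZMod.stdAddChar (b * n)
      = if r = n then (q:ℂ) * ZMod.stdAddChar (a * n ^ 2) else 0 := by
    intro r
    have : ∀ b : ZMod q, ZMod.stdAddChar (a * r ^ 2 - r * b) * ZMod.stdAddChar (b * n)
        = ZMod.stdAddChar (a * r ^ 2) * ZMod.stdAddChar (b * (n - r)) := by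
      intro b
      rw [← AddChar.map_add_eq_mul, ← AddChar.map_add_eq_mul]; congr 1; ring
    simp_rw [this]
    rw [← mul_sum, AddChar.sum_mulShift _ (ZMod.isPrimitive_stdAddChar q)]
    by_cases h : r = n
    · subst h; simp [mul_comm]
    · have : n - r ≠ 0 := fun h' => h (sub_eq_zero.1 h').symm
      simp [h, this]
  simp_rw [this]
  simp

lemma sum_zmod_val (f : ℕ → ℝ) : ∑ j : ZMod q, f j.val = ∑ i ∈ range q, f i := by
  obtain ⟨q', rfl⟩ : ∃ q', q = q' + 1 := Nat.exists_eq_succ_of_ne_zero (NeZero.ne q)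
  exact Fin.sum_univ_eq_sum_range f (q' + 1)

/-- completion: the twisted quadratic sum is bounded by geometric sums -/
lemma complete (a b : ℤ) (ha : IsUnit (a : ZMod q)) (t m : ℕ) (φ : ℝ) :
    √q * ‖∑ u ∈ range m, ee (a * ((t + u : ℕ):ℝ) ^ 2 / q) * ee ((φ + b / q) * u)‖
      ≤ 2 * ∑ j ∈ range q, DD m (φ + j / q) := by
  have hq : (0:ℝ) < q := by exact_mod_cast Nat.pos_of_ne_zero (NeZero.ne q)
  have e1 : (q:ℂ) * ∑ u ∈ range m, ee (a * ((t + u : ℕ):ℝ) ^ 2 / q) * ee ((φ + b / q) * u)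
      = ∑ j : ZMod q, (GG (a : ZMod q) (j - b) * ZMod.stdAddChar ((j - (b : ZMod q)) * (t : ZMod q))) *
          ∑ u ∈ range m, ee ((φ + (j.val : ℝ) / q) * u) := by
    simp_rw [mul_sum]
    rw [sum_comm]
    refine sum_congr rfl (fun u _ => ?_)
    have h1 : ee (a * ((t + u : ℕ):ℝ) ^ 2 / q)
        = ZMod.stdAddChar ((a : ZMod q) * ((t + u : ℕ) : ZMod q) ^ 2) := by
      have := psi_int (q := q) (a * ((t + u : ℕ):ℤ) ^ 2)
      push_cast at this ⊢
      exact this.symm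
    rw [← mul_assoc, h1, gauss_expand, sum_mul, ← Equiv.sum_comp (Equiv.subRight (b : ZMod q))]
    refine sum_congr rfl (fun j _ => ?_)
    simp only [Equiv.subRight_apply]
    have h2 : ee ((φ + b / q) * u) = ee (φ * u) * ZMod.stdAddChar ((b : ZMod q) * (u : ZMod q)) := by
      have := psi_int (q := q) (b * (u:ℤ))
      push_cast at this
      rw [this, ← ee_add]; congr 1; ring
    have h3 : ee ((φ + (j.val : ℝ) / q) * u) = ee (φ * u) * ZMod.stdAddChar (j * (u : ZMod q)) := by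
      have := psi_int (q := q) ((j.val : ℤ) * (u:ℤ))
      push_cast at this
      rw [ZMod.natCast_zmod_val] at this
      rw [this, ← ee_add]; congr 1
      simp only [ZMod.natCast_val]; ring
    rw [h2, h3]
    have h4 : ZMod.stdAddChar ((j - (b : ZMod q)) * ((t + u : ℕ) : ZMod q)) * ZMod.stdAddChar ((b : ZMod q) * (u : ZMod q))
        = ZMod.stdAddChar ((j - (b : ZMod q)) * (t : ZMod q)) * ZMod.stdAddChar (j * (u : ZMod q)) := by
      rw [← AddChar.map_add_eq_mul, ← AddChar.map_add_eq_mul]; congr 1; push_cast; ring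
    linear_combination (GG (a : ZMod q) (j - b) * ee (φ * u)) * h4
  have e2 : (q:ℝ) * ‖∑ u ∈ range m, ee (a * ((t + u : ℕ):ℝ) ^ 2 / q) * ee ((φ + b / q) * u)‖
      ≤ (2 * √q) * ∑ j ∈ range q, DD m (φ + j / q) := by
    have : (q:ℝ) = ‖(q:ℂ)‖ := by simp
    rw [← sum_zmod_val (q := q) (fun j => DD m (φ + j / q))]
    conv_lhs => rw [this]
    rw [← norm_mul]
    simp only [Complex.norm_natCast]
    rw [e1, mul_sum]
    refine (norm_sum_le _ _).trans (sum_le_sum (fun j _ => ?_))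
    rw [norm_mul, norm_mul, norm_psi, mul_one]
    refine mul_le_mul_of_nonneg_right ?_ (norm_nonneg _)
    have h1 := norm_GG_sq (a : ZMod q) (j - b) ha
    have h2 : (2 * √q) ^ 2 = 4 * (q:ℝ) := by rw [mul_pow, Real.sq_sqrt hq.le]; norm_num
    exact abs_le_of_sq_le_sq' (by nlinarith) (by positivity) |>.2
  have hs : 0 < √(q:ℝ) := Real.sqrt_pos.2 hq
  have h3 : (q:ℝ) = √q * √q := (Real.mul_self_sqrt hq.le).symm
  refine le_of_mul_le_mul_left ?_ hs
  calc √(q:ℝ) * (√q * _) = q * _ := by rw [← mul_assoc, ← h3]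
    _ ≤ _ := e2
    _ = _ := by ring

end gauss

end Pool.Agent.Lib.MP_4e7873_nt
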