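import Mathlib

namespace Pool.Agent.Lib.MP_4e7873_nt

/-- The Weyl sum `S_d(x; N) = ∑_{n=1}^N e(x_1 n + ... + x_d n^d)`. -/
noncomputable def weylSum (d N : ℕ) (x : Fin d → ℝ) : ℂ :=
  ∑ n ∈ Finset.Icc 1 N,
    Complex.exp (2 * Real.pi * Complex.I * ((∑ j : Fin d, x j * (n : ℝ) ^ (j.val + 1) : ℝ) : ℂ))

/-- The local mean value `I_{s,d}(δ, ξ; 1, N)`: the integral of `|S_d(x; N)|^{2s}` over the
cube `ξ + [0, δ]^d`. -/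
noncomputable def localMean (s : ℝ) (d : ℕ) (δ : ℝ) (ξ : Fin d → ℝ) (N : ℕ) : ℝ :=
  ∫ x in Set.Icc ξ (fun j => ξ j + δ), ‖weylSum d N x‖ ^ (2 * s)

end Pool.Agent.Lib.MP_4e7873_nt
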