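import Pool.Agent.Lib.MP_4e7873_nt.Struct
import Pool.Agent.Lib.MP_4e7873_nt.Defs

namespace Pool.Agent.Lib.MP_4e7873_nt

open Finset Real MeasureTheory

lemma cover {d : ℕ} (f : (Fin d → ℝ) → ℝ) (hf : Continuous f) (_hf0 : ∀ x, 0 ≤ f x)
    (ξ : Fin d → ℝ) (δ : ℝ)
    (hδ : 0 ≤ δ) (A : ℝ) (hA : 0 ≤ A) {ι : Type} (P : Finset ι) (c : ι → ℝ)
    (lo hi : ι → Fin d → ℝ) (hc : ∀ p ∈ P, 0 ≤ c p) (hle : ∀ p ∈ P, lo p ≤ hi p)
    (h : ∀ x ∈ Set.Icc ξ (fun j => ξ j + δ),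
      f x ≤ A ∨ ∃ p ∈ P, x ∈ Set.Icc (lo p) (hi p) ∧ f x ≤ c p) :
    ∫ x in Set.Icc ξ (fun j => ξ j + δ), f x
      ≤ A * δ ^ d + ∑ p ∈ P, c p * ∏ j, (hi p j - lo p j) := by
  set Q := Set.Icc ξ (fun j => ξ j + δ) with hQ
  have hint : ∀ p ∈ P, Integrable ((Set.Icc (lo p) (hi p)).indicator (fun _ => c p)) volume := by
    intro p _
    exact (integrableOn_const (isCompact_Icc.measure_lt_top).ne).integrable_indicator
      measurableSet_Icc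
  have hnn : ∀ p ∈ P, ∀ x, 0 ≤ (Set.Icc (lo p) (hi p)).indicator (fun _ => c p) x :=
    fun p hp x => Set.indicator_nonneg (fun _ _ => hc p hp) x
  have hI1 : IntegrableOn (fun _ => A) Q volume :=
    integrableOn_const (isCompact_Icc.measure_lt_top).ne
  have hI2 : IntegrableOn
      (fun x => ∑ p ∈ P, (Set.Icc (lo p) (hi p)).indicator (fun _ => c p) x) Q volume :=
    (integrable_finsetSum P hint).integrableOn
  have h1 : ∫ x in Q, f x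
      ≤ ∫ x in Q, (A + ∑ p ∈ P, (Set.Icc (lo p) (hi p)).indicator (fun _ => c p) x) := by
    refine setIntegral_mono_on (hf.continuousOn.integrableOn_compact isCompact_Icc)
      (hI1.add hI2) measurableSet_Icc (fun x hx => ?_)
    rcases h x hx with h1 | ⟨p, hp, hx1, hx2⟩
    · have := sum_nonneg (fun p hp => hnn p hp x)
      linarith
    · have := single_le_sum (f := fun p => (Set.Icc (lo p) (hi p)).indicator (fun _ => c p) x)
        (fun p hp => hnn p hp x) hp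
      simp only [Set.indicator_of_mem hx1] at this
      linarith
  refine h1.trans ?_
  rw [integral_add hI1 hI2, integral_finsetSum P (fun p hp => (hint p hp).integrableOn)]
  refine add_le_add (le_of_eq ?_) (sum_le_sum (fun p hp => ?_))
  · rw [setIntegral_const, smul_eq_mul, mul_comm, hQ, Measure.real,
      Real.volume_Icc_pi_toReal (fun j => by simpa using hδ)]
    simp
  · refine (setIntegral_le_integral (hint p hp) (ae_of_all _ (hnn p hp))).trans (le_of_eq ?_)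
    rw [integral_indicator_const _ measurableSet_Icc, smul_eq_mul, mul_comm, Measure.real,
      Real.volume_Icc_pi_toReal (hle p hp)]

lemma continuous_weylSum (d N : ℕ) : Continuous (weylSum d N) := by
  unfold weylSum; fun_prop

lemma weylSum_two (N : ℕ) (x : Fin 2 → ℝ) : weylSum 2 N x = SS N (x 0) (x 1) := by
  unfold weylSum SS
  rw [Finset.range_eq_Ico, Finset.sum_Ico_add' (fun n : ℕ => ee (x 0 * (n:ℝ) + x 1 * (n:ℝ) ^ 2)) 0 N 1]
  refine sum_congr rfl (fun n _ => ?_)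
  unfold ee
  simp [Fin.sum_univ_two]

lemma card_Icc_le (u v : ℝ) (h : u ≤ v) : ((Icc ⌈u - 1⌉ ⌊v + 1⌋).card : ℝ) ≤ v - u + 3 := by
  rw [Int.card_Icc]
  have h1 := Int.le_ceil (u - 1)
  have h2 := Int.floor_le (v + 1)
  rcases le_or_gt (⌊v + 1⌋ + 1 - ⌈u - 1⌉) 0 with h3 | h3
  · rw [Int.toNat_of_nonpos h3]; simp; linarith
  · have : (((⌊v + 1⌋ + 1 - ⌈u - 1⌉).toNat : ℤ) : ℝ) = ((⌊v + 1⌋ + 1 - ⌈u - 1⌉ : ℤ) : ℝ) := by
      rw [Int.toNat_of_nonneg h3.le]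
    rw [Int.cast_natCast] at this
    rw [this]; push_cast; linarith

lemma rpow_le_one_add (y N e : ℝ) (h1 : 1 ≤ y) (h2 : y ≤ N) : y ^ e ≤ 1 + N ^ e := by
  rcases le_total 0 e with h | h
  · have := Real.rpow_le_rpow (by linarith) h2 h; linarith
  · have := Real.rpow_le_one_of_one_le_of_nonpos h1 h
    have : 0 ≤ N ^ e := Real.rpow_nonneg (by linarith) _
    linarith

theorem mean_two (s : ℝ) (hs : 0 < s) (N : ℕ) (hN : 0 < N) (δ : ℝ) (hδ : 0 ≤ δ) (hδ1 : δ ≤ 1)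
    (ξ : Fin 2 → ℝ) (ℓ : ℝ) (hℓ : 1 + Real.log (8 * N) ≤ ℓ) :
    localMean s 2 δ ξ N ≤ 705 * ℓ ^ 2 * (3000 * ℓ) ^ (2 * s) *
      (δ ^ 2 * (N:ℝ) ^ s + (N:ℝ) ^ (s - 1) + (N:ℝ) ^ (2 * s - 3)) := by
  have hN' : (1:ℝ) ≤ N := by exact_mod_cast hN
  have hN0 : (0:ℝ) < N := by linarith
  have hlog8 : 0 ≤ Real.log (8 * N) := Real.log_nonneg (by linarith)
  have hℓ1 : 1 ≤ ℓ := by linarith
  set T : ℝ := (3000 * ℓ * N) ^ 2 with hT
  set W : ℝ := (3000 * ℓ) ^ (2 * s) with hW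
  have hW0 : 0 ≤ W := by positivity
  set I : ℕ := Nat.log 2 N + 1 with hI
  set P : Finset (Σ _ : ℕ, Σ _ : ℕ, ℤ × ℤ) := (range I).sigma (fun i => (range (2 ^ (i + 1))).sigma
    (fun j => (Icc ⌈(1 + (j:ℝ)) * ξ 0 - 1⌉ ⌊(1 + (j:ℝ)) * (ξ 0 + δ) + 1⌋) ×ˢ
      (Icc ⌈(1 + (j:ℝ)) * ξ 1 - 1⌉ ⌊(1 + (j:ℝ)) * (ξ 1 + δ) + 1⌋))) with hP
  have key := cover (fun x => ‖weylSum 2 N x‖ ^ (2 * s))
    ((continuous_weylSum 2 N).norm.rpow_const (fun _ => Or.inr (by positivity)))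
    (fun x => by positivity) ξ δ hδ (W * (N:ℝ) ^ s) (by positivity) P
    (fun p => (T / 2 ^ p.1) ^ s)
    (fun p => ![p.2.2.1 / (1 + (p.2.1:ℝ)) - 2 ^ (p.1 + 1) / ((1 + (p.2.1:ℝ)) * N),
      p.2.2.2 / (1 + (p.2.1:ℝ)) - 2 ^ (p.1 + 1) / ((1 + (p.2.1:ℝ)) * N ^ 2)])
    (fun p => ![p.2.2.1 / (1 + (p.2.1:ℝ)) + 2 ^ (p.1 + 1) / ((1 + (p.2.1:ℝ)) * N),
      p.2.2.2 / (1 + (p.2.1:ℝ)) + 2 ^ (p.1 + 1) / ((1 + (p.2.1:ℝ)) * N ^ 2)])
    (fun p _ => by positivity)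
    (fun p _ j => by
      have h1 : (0:ℝ) ≤ 2 ^ (p.1 + 1) / ((1 + (p.2.1:ℝ)) * N) := by positivity
      have h2 : (0:ℝ) ≤ 2 ^ (p.1 + 1) / ((1 + (p.2.1:ℝ)) * N ^ 2) := by positivity
      fin_cases j <;> simp <;> linarith)
    (fun x hx => by
      simp only [weylSum_two]
      set V := ‖SS N (x 0) (x 1)‖ with hV
      have hV0 : 0 ≤ V := norm_nonneg _
      rcases le_or_gt V (3000 * ℓ * √N) with h | h
      · left
        refine (Real.rpow_le_rpow hV0 h (by positivity)).trans (le_of_eq ?_)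
        rw [Real.mul_rpow (by positivity) (by positivity), Real.sqrt_eq_rpow,
          ← Real.rpow_mul hN0.le]
        congr 2; ring
      · right
        obtain ⟨q, hq, a, b, h1, h2, h3⟩ := structure_thm N hN (x 0) (x 1) ℓ hℓ V hV h
        have hVp : 0 < V := lt_of_le_of_lt (by positivity) h
        have hVN : V ≤ N := norm_SS_le _ _ _
        set Z := T / V ^ 2 with hZ
        have hZ1 : 1 ≤ Z := by
          rw [hZ, le_div_iff₀ (by positivity), one_mul, hT]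
          have : V ≤ 3000 * ℓ * N := by nlinarith
          gcongr
        have hZN : Z ≤ N := by
          rw [hZ, div_le_iff₀ (by positivity), hT]
          have h4 : (3000 * ℓ * √N) ^ 2 ≤ V ^ 2 := by gcongr
          rw [mul_pow, Real.sq_sqrt hN0.le] at h4
          nlinarith
        obtain ⟨i, hi1, hi2⟩ := exists_nat_pow_near hZ1 (by norm_num : (1:ℝ) < 2)
        obtain ⟨j, rfl⟩ : ∃ j, q = j + 1 := ⟨q - 1, by omega⟩
        have hqe : ((j + 1 : ℕ):ℝ) = 1 + j := by push_cast; ring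
        rw [hqe] at h1 h2 h3
        have hj0 : (0:ℝ) < 1 + j := by positivity
        have g1 : 1 + (j:ℝ) ≤ Z := by rw [hZ, le_div_iff₀ (by positivity)]; exact h1
        have g2 : |x 1 - a / (1 + j)| * (1 + j) * N ^ 2 ≤ Z := by
          rw [hZ, le_div_iff₀ (by positivity)]; exact h2
        have g3 : |x 0 - b / (1 + j)| * (1 + j) * N ≤ Z := by
          rw [hZ, le_div_iff₀ (by positivity)]; exact h3
        have g4 : |(1 + j) * x 1 - a| ≤ 1 := by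
          rw [show (1 + j) * x 1 - a = (x 1 - a / (1 + j)) * (1 + j) by field_simp, abs_mul,
            abs_of_pos hj0]
          have : |x 1 - a / (1 + j)| * (1 + j) * N ≤ |x 1 - a / (1 + j)| * (1 + j) * N ^ 2 := by
            gcongr; nlinarith
          exact le_of_mul_le_mul_right (by linarith) hN0
        have g5 : |(1 + j) * x 0 - b| ≤ 1 := by
          rw [show (1 + j) * x 0 - b = (x 0 - b / (1 + j)) * (1 + j) by field_simp, abs_mul,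
            abs_of_pos hj0]
          exact le_of_mul_le_mul_right (by linarith) hN0
        have g6 : |x 1 - a / (1 + j)| ≤ 2 ^ (i + 1) / ((1 + (j:ℝ)) * N ^ 2) := by
          rw [le_div_iff₀ (by positivity)]; linarith
        have g7 : |x 0 - b / (1 + j)| ≤ 2 ^ (i + 1) / ((1 + (j:ℝ)) * N) := by
          rw [le_div_iff₀ (by positivity)]; linarith
        have x0 := mul_le_mul_of_nonneg_left (hx.1 0) hj0.le
        have x0' := mul_le_mul_of_nonneg_left (hx.2 0) hj0.le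
        have x1 := mul_le_mul_of_nonneg_left (hx.1 1) hj0.le
        have x1' := mul_le_mul_of_nonneg_left (hx.2 1) hj0.le
        simp only at x0' x1'
        rw [abs_le] at g4 g5 g6 g7
        refine ⟨⟨i, j, (b, a)⟩, ?_, ⟨fun k => ?_, fun k => ?_⟩, ?_⟩
        · simp only [hP, mem_sigma, mem_range, mem_product, mem_Icc, Int.ceil_le, Int.le_floor]
          refine ⟨?_, ?_, ⟨by linarith, by linarith⟩, ⟨by linarith, by linarith⟩⟩
          · have : 2 ^ i ≤ N := by exact_mod_cast hi1.trans hZN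
            have := Nat.le_log_of_pow_le (by norm_num) this
            omega
          · have : (j:ℝ) < 2 ^ (i + 1) := by linarith
            exact_mod_cast this
        · fin_cases k <;> simp <;> linarith
        · fin_cases k <;> simp <;> linarith
        · simp only
          rw [Real.rpow_mul hV0]
          refine Real.rpow_le_rpow (by positivity) ?_ hs.le
          rw [le_div_iff₀ (by positivity), Real.rpow_two]
          rw [hZ, le_div_iff₀ (by positivity)] at hi1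
          linarith)
  refine key.trans ?_
  set R := δ ^ 2 * (N:ℝ) ^ s + (N:ℝ) ^ (s - 1) + (N:ℝ) ^ (2 * s - 3) with hR
  have r1 : 0 ≤ δ ^ 2 * (N:ℝ) ^ s := by positivity
  have r2 : 0 ≤ (N:ℝ) ^ (s - 1) := by positivity
  have r3 : 0 ≤ (N:ℝ) ^ (2 * s - 3) := by positivity
  have hR0 : 0 ≤ R := by positivity
  rw [hP, sum_sigma]
  have hterm : ∀ i ∈ range I, ∑ p ∈ (range (2 ^ (i + 1))).sigma
      (fun j => (Icc ⌈(1 + (j:ℝ)) * ξ 0 - 1⌉ ⌊(1 + (j:ℝ)) * (ξ 0 + δ) + 1⌋) ×ˢ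
      (Icc ⌈(1 + (j:ℝ)) * ξ 1 - 1⌉ ⌊(1 + (j:ℝ)) * (ξ 1 + δ) + 1⌋)),
      (T / 2 ^ i) ^ s * ∏ k : Fin 2,
        ((![p.2.1 / (1 + (p.1:ℝ)) + 2 ^ (i + 1) / ((1 + (p.1:ℝ)) * N),
      p.2.2 / (1 + (p.1:ℝ)) + 2 ^ (i + 1) / ((1 + (p.1:ℝ)) * N ^ 2)] : Fin 2 → ℝ) k -
        (![p.2.1 / (1 + (p.1:ℝ)) - 2 ^ (i + 1) / ((1 + (p.1:ℝ)) * N),
      p.2.2 / (1 + (p.1:ℝ)) - 2 ^ (i + 1) / ((1 + (p.1:ℝ)) * N ^ 2)] : Fin 2 → ℝ) k)
        ≤ 352 * ℓ * W * R := by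
    intro i hi
    rw [mem_range] at hi
    have hiN : 2 ^ i ≤ N :=
      (Nat.pow_le_pow_right (by norm_num) (by omega)).trans (Nat.pow_log_le_self 2 hN.ne')
    set y : ℝ := 2 ^ i with hy
    have hy1 : 1 ≤ y := one_le_pow₀ (by norm_num)
    have hyN : y ≤ N := by rw [hy]; exact_mod_cast hiN
    have hy2 : (2:ℝ) ^ (i + 1) = 2 * y := by rw [pow_succ]; ring
    rw [← mul_sum, sum_sigma]
    have hj : ∀ j ∈ range (2 ^ (i + 1)), ∑ p ∈
        (Icc ⌈(1 + (j:ℝ)) * ξ 0 - 1⌉ ⌊(1 + (j:ℝ)) * (ξ 0 + δ) + 1⌋) ×ˢ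
        (Icc ⌈(1 + (j:ℝ)) * ξ 1 - 1⌉ ⌊(1 + (j:ℝ)) * (ξ 1 + δ) + 1⌋), ∏ k : Fin 2,
        ((![p.1 / (1 + (j:ℝ)) + 2 ^ (i + 1) / ((1 + (j:ℝ)) * N),
          p.2 / (1 + (j:ℝ)) + 2 ^ (i + 1) / ((1 + (j:ℝ)) * N ^ 2)] : Fin 2 → ℝ) k -
        (![p.1 / (1 + (j:ℝ)) - 2 ^ (i + 1) / ((1 + (j:ℝ)) * N),
          p.2 / (1 + (j:ℝ)) - 2 ^ (i + 1) / ((1 + (j:ℝ)) * N ^ 2)] : Fin 2 → ℝ) k)
        ≤ 16 * y ^ 2 / N ^ 3 * (2 * δ ^ 2 + 18 * (1 / (1 + (j:ℝ)))) := by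
      intro j _
      have hj0 : (0:ℝ) ≤ j := by positivity
      have e : ∀ p : ℤ × ℤ, ∏ k : Fin 2,
        ((![p.1 / (1 + (j:ℝ)) + 2 ^ (i + 1) / ((1 + (j:ℝ)) * N),
          p.2 / (1 + (j:ℝ)) + 2 ^ (i + 1) / ((1 + (j:ℝ)) * N ^ 2)] : Fin 2 → ℝ) k -
        (![p.1 / (1 + (j:ℝ)) - 2 ^ (i + 1) / ((1 + (j:ℝ)) * N),
          p.2 / (1 + (j:ℝ)) - 2 ^ (i + 1) / ((1 + (j:ℝ)) * N ^ 2)] : Fin 2 → ℝ) k)
          = 16 * y ^ 2 / N ^ 3 * (1 / (1 + (j:ℝ))) ^ 2 := by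
        intro p
        rw [Fin.prod_univ_two, hy2]
        simp only [Matrix.cons_val_zero, Matrix.cons_val_one]
        field_simp; ring
      simp only [e]
      rw [sum_const, card_product, nsmul_eq_mul, Nat.cast_mul]
      have c0 := card_Icc_le ((1 + (j:ℝ)) * ξ 0) ((1 + (j:ℝ)) * (ξ 0 + δ)) (by nlinarith)
      have c1 := card_Icc_le ((1 + (j:ℝ)) * ξ 1) ((1 + (j:ℝ)) * (ξ 1 + δ)) (by nlinarith)
      rw [show (1 + (j:ℝ)) * (ξ 0 + δ) - (1 + (j:ℝ)) * ξ 0 + 3 = (1 + j) * δ + 3 by ring] at c0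
      rw [show (1 + (j:ℝ)) * (ξ 1 + δ) - (1 + (j:ℝ)) * ξ 1 + 3 = (1 + j) * δ + 3 by ring] at c1
      calc _ ≤ ((1 + j) * δ + 3) * ((1 + j) * δ + 3) *
            (16 * y ^ 2 / N ^ 3 * (1 / (1 + (j:ℝ))) ^ 2) := by gcongr
        _ = 16 * y ^ 2 / N ^ 3 * (δ + 3 * (1 / (1 + (j:ℝ)))) ^ 2 := by field_simp
        _ ≤ _ := by
          refine mul_le_mul_of_nonneg_left ?_ (by positivity)
          have u0 : 0 ≤ 1 / (1 + (j:ℝ)) := by positivity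
          have u1 : 1 / (1 + (j:ℝ)) ≤ 1 := by
            rw [div_le_one (by positivity)]; linarith
          nlinarith [sq_nonneg (δ - 3 * (1 / (1 + (j:ℝ))))]
    have hsum := sum_le_sum hj
    rw [← mul_sum, sum_add_distrib, sum_const, card_range, nsmul_eq_mul, ← mul_sum] at hsum
    have hh := harm_le (2 ^ (i + 1)) (8 * N) (by rw [pow_succ]; omega)
    push_cast at hh hsum
    rw [hy2] at hsum
    have hsum2 : 16 * y ^ 2 / N ^ 3 * (2 * y * (2 * δ ^ 2) +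
        18 * ∑ j ∈ range (2 ^ (i + 1)), 1 / (1 + (j:ℝ)))
        ≤ 16 * y ^ 2 / N ^ 3 * (4 * y * δ ^ 2 + 18 * ℓ) := by
      refine mul_le_mul_of_nonneg_left ?_ (by positivity)
      linarith
    have hy0 : 0 < y := by linarith
    have eT : (T / y) ^ s = W * (N:ℝ) ^ (2 * s) / y ^ s := by
      rw [Real.div_rpow (by positivity) hy0.le, hT, ← Real.rpow_two, ← Real.rpow_mul (by positivity),
        Real.mul_rpow (by positivity) hN0.le]
    have b1 : (N:ℝ) ^ (2 * s) / y ^ s * (y ^ 2 / N ^ 3) ≤ R := by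
      have e1 : (N:ℝ) ^ (2 * s) / y ^ s * (y ^ 2 / N ^ 3) = (N:ℝ) ^ (2 * s - 3) * y ^ (2 - s) := by
        rw [Real.rpow_sub hN0, Real.rpow_sub hy0, Real.rpow_two, Real.rpow_ofNat]; ring
      have e2 : (N:ℝ) ^ (2 * s - 3) * (N:ℝ) ^ (2 - s) = (N:ℝ) ^ (s - 1) := by
        rw [← Real.rpow_add hN0]; congr 1; ring
      have := mul_le_mul_of_nonneg_left (rpow_le_one_add y N (2 - s) hy1 hyN) r3
      rw [e1]; linarith
    have b2 : (N:ℝ) ^ (2 * s) / y ^ s * (y ^ 3 / N ^ 3) * δ ^ 2 ≤ R := by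
      have e1 : (N:ℝ) ^ (2 * s) / y ^ s * (y ^ 3 / N ^ 3) = (N:ℝ) ^ (2 * s - 3) * y ^ (3 - s) := by
        rw [Real.rpow_sub hN0, Real.rpow_sub hy0, Real.rpow_ofNat, Real.rpow_ofNat]; ring
      have e2 : (N:ℝ) ^ (2 * s - 3) * (N:ℝ) ^ (3 - s) = (N:ℝ) ^ s := by
        rw [← Real.rpow_add hN0]; congr 1; ring
      have h1 := mul_le_mul_of_nonneg_left (rpow_le_one_add y N (3 - s) hy1 hyN) r3
      rw [mul_add, e2, mul_one] at h1
      have h2 := mul_le_mul_of_nonneg_right h1 (sq_nonneg δ)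
      have h3 : (N:ℝ) ^ (2 * s - 3) * δ ^ 2 ≤ (N:ℝ) ^ (2 * s - 3) :=
        mul_le_of_le_one_right r3 (by nlinarith)
      rw [e1]; linarith
    calc _ ≤ (T / y) ^ s * (16 * y ^ 2 / N ^ 3 * (4 * y * δ ^ 2 + 18 * ℓ)) := by
          refine mul_le_mul_of_nonneg_left ?_ (by positivity)
          refine le_trans (le_of_eq ?_) (hsum.trans hsum2)
          simp only [hy2]
      _ = W * (64 * ((N:ℝ) ^ (2 * s) / y ^ s * (y ^ 3 / N ^ 3) * δ ^ 2)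
          + 288 * ℓ * ((N:ℝ) ^ (2 * s) / y ^ s * (y ^ 2 / N ^ 3))) := by rw [eT]; ring
      _ ≤ W * (64 * R + 288 * ℓ * R) := by gcongr
      _ ≤ W * (64 * (ℓ * R) + 288 * ℓ * R) := by
          gcongr; exact le_mul_of_one_le_left hR0 hℓ1
      _ = _ := by ring
  have hs1 := sum_le_sum hterm
  rw [sum_const, card_range, nsmul_eq_mul] at hs1
  have hI2 : (I:ℝ) ≤ 2 * ℓ := by
    have h1 : (2:ℝ) ^ Nat.log 2 N ≤ N := by exact_mod_cast Nat.pow_log_le_self 2 hN.ne'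
    have h2 := Real.log_le_log (by positivity) h1
    rw [Real.log_pow] at h2
    have h3 := Real.log_two_gt_d9
    have h4 : Real.log N ≤ Real.log (8 * N) := Real.log_le_log hN0 (by linarith)
    have h5 : (0:ℝ) ≤ Nat.log 2 N := by positivity
    rw [hI]; push_cast
    nlinarith
  have hs2 : (I:ℝ) * (352 * ℓ * W * R) ≤ 2 * ℓ * (352 * ℓ * W * R) := by gcongr
  have hs3 : W * (N:ℝ) ^ s * δ ^ 2 ≤ ℓ ^ 2 * (W * R) := by
    have h1 : W * (N:ℝ) ^ s * δ ^ 2 ≤ W * R := by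
      rw [mul_assoc]; gcongr; linarith
    exact h1.trans (le_mul_of_one_le_left (by positivity) (by nlinarith))
  refine (add_le_add hs3 (hs1.trans hs2)).trans (le_of_eq ?_)
  ring

lemma log_small (p C ε : ℝ) (hp : 0 < p) (hε : 0 < ε) :
    ∃ N₀ : ℕ, ∀ N : ℕ, N₀ ≤ N → C * (1 + Real.log (8 * N)) ^ p ≤ (N:ℝ) ^ ε := by
  set κ := ε / (2 * p) with hκ
  have hκ0 : 0 < κ := by positivity
  set D := 1 + 8 ^ κ / κ with hD
  have hD0 : 0 < D := by positivity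
  have ht := (tendsto_rpow_atTop (half_pos hε)).comp tendsto_natCast_atTop_atTop
  obtain ⟨N₁, hN₁⟩ := Filter.eventually_atTop.1 (ht.eventually_ge_atTop (|C| * D ^ p))
  refine ⟨max N₁ 1, fun N hN => ?_⟩
  have h1 := hN₁ N (le_of_max_le_left hN)
  simp only [Function.comp] at h1
  have hN' : (1:ℝ) ≤ N := by exact_mod_cast le_of_max_le_right hN
  have hN0 : (0:ℝ) < N := by linarith
  have hlog8 : 0 ≤ Real.log (8 * N) := Real.log_nonneg (by linarith)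
  have h2 : 1 + Real.log (8 * N) ≤ D * (N:ℝ) ^ κ := by
    have a1 := Real.log_le_rpow_div (x := 8 * N) (by positivity) hκ0
    rw [Real.mul_rpow (by norm_num) hN0.le] at a1
    have a2 : 1 ≤ (N:ℝ) ^ κ := Real.one_le_rpow hN' hκ0.le
    rw [hD, add_mul, one_mul, div_mul_eq_mul_div]
    linarith
  have h3 : (1 + Real.log (8 * N)) ^ p ≤ D ^ p * (N:ℝ) ^ (ε / 2) := by
    refine (Real.rpow_le_rpow (by positivity) h2 hp.le).trans (le_of_eq ?_)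
    rw [Real.mul_rpow hD0.le (by positivity), ← Real.rpow_mul hN0.le]
    congr 2; rw [hκ]; field_simp
  calc C * (1 + Real.log (8 * N)) ^ p ≤ |C| * (1 + Real.log (8 * N)) ^ p := by
        gcongr; exact le_abs_self C
    _ ≤ |C| * (D ^ p * (N:ℝ) ^ (ε / 2)) := by gcongr
    _ = (|C| * D ^ p) * (N:ℝ) ^ (ε / 2) := by ring
    _ ≤ (N:ℝ) ^ (ε / 2) * (N:ℝ) ^ (ε / 2) := by gcongr
    _ = _ := by rw [← Real.rpow_add hN0]; congr 1; ring

theorem quadratic_case (s ε : ℝ) (hs : 0 < s) (hε : 0 < ε) :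
    ∃ N₀ : ℕ, ∀ N : ℕ, N₀ ≤ N → ∀ δ : ℝ, 0 < δ → δ ≤ 1 →
      (2 ≤ s ∨ (N:ℝ) ^ (-(1 / 2 : ℝ)) ≤ δ) → ∀ ξ : Fin 2 → ℝ,
        localMean s 2 δ ξ N ≤ δ ^ 2 * (N:ℝ) ^ (s + ε) + (N:ℝ) ^ (2 * s - 3 + ε) := by
  obtain ⟨N₀, hN₀⟩ := log_small (2 * s + 2) (1410 * 3000 ^ (2 * s)) ε (by positivity) hε
  refine ⟨max N₀ 1, fun N hN δ hδ hδ1 hc ξ => ?_⟩
  have h1 := hN₀ N (le_of_max_le_left hN)
  have hN1 : 0 < N := le_of_max_le_right hN
  have hN' : (1:ℝ) ≤ N := by exact_mod_cast hN1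
  have hN0 : (0:ℝ) < N := by linarith
  have hlog8 : 0 ≤ Real.log (8 * N) := Real.log_nonneg (by linarith)
  set ℓ := 1 + Real.log (8 * N) with hℓ
  have hℓ0 : 0 < ℓ := by linarith
  have h2 := mean_two s hs N hN1 δ hδ.le hδ1 ξ ℓ le_rfl
  have r1 : 0 ≤ δ ^ 2 * (N:ℝ) ^ s := by positivity
  have r3 : 0 ≤ (N:ℝ) ^ (2 * s - 3) := by positivity
  have h3 : (N:ℝ) ^ (s - 1) ≤ δ ^ 2 * (N:ℝ) ^ s + (N:ℝ) ^ (2 * s - 3) := by
    rcases hc with h | h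
    · have := Real.rpow_le_rpow_of_exponent_le hN' (by linarith : s - 1 ≤ 2 * s - 3)
      linarith
    · have a1 : ((N:ℝ) ^ (-(1 / 2 : ℝ))) ^ 2 ≤ δ ^ 2 := by gcongr
      have a2 : (N:ℝ) ^ (s - 1) = ((N:ℝ) ^ (-(1 / 2 : ℝ))) ^ 2 * (N:ℝ) ^ s := by
        rw [← Real.rpow_two, ← Real.rpow_mul hN0.le, ← Real.rpow_add hN0]; congr 1; ring
      have a3 : ((N:ℝ) ^ (-(1 / 2 : ℝ))) ^ 2 * (N:ℝ) ^ s ≤ δ ^ 2 * (N:ℝ) ^ s := by gcongr
      linarith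
  have e1 : 1410 * 3000 ^ (2 * s) * ℓ ^ (2 * s + 2) = 1410 * ℓ ^ 2 * (3000 * ℓ) ^ (2 * s) := by
    rw [Real.mul_rpow (by norm_num) hℓ0.le, Real.rpow_add hℓ0, Real.rpow_two]; ring
  rw [e1] at h1
  calc localMean s 2 δ ξ N ≤ _ := h2
    _ ≤ 705 * ℓ ^ 2 * (3000 * ℓ) ^ (2 * s) *
        (2 * (δ ^ 2 * (N:ℝ) ^ s + (N:ℝ) ^ (2 * s - 3))) := by gcongr; linarith
    _ = 1410 * ℓ ^ 2 * (3000 * ℓ) ^ (2 * s) * (δ ^ 2 * (N:ℝ) ^ s + (N:ℝ) ^ (2 * s - 3)) := by ring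
    _ ≤ (N:ℝ) ^ ε * (δ ^ 2 * (N:ℝ) ^ s + (N:ℝ) ^ (2 * s - 3)) := by gcongr
    _ = _ := by rw [Real.rpow_add hN0, Real.rpow_add hN0]; ring

end Pool.Agent.Lib.MP_4e7873_nt
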