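import Pool.Agent.Lib.MP_4e7873_nt.Basic

namespace Pool.Agent.Lib.MP_4e7873_nt

open Finset Real

lemma harm_le (n M : ℕ) (h : n ≤ M) : ∑ j ∈ range n, 1 / (1 + (j:ℝ)) ≤ 1 + Real.log M := by
  have h1 := harmonic_le_one_add_log n
  have h2 : ((harmonic n : ℚ) : ℝ) = ∑ j ∈ range n, 1 / (1 + (j:ℝ)) := by
    unfold harmonic; push_cast
    refine sum_congr rfl (fun j _ => ?_)
    rw [one_div, add_comm]
  have h3 : Real.log n ≤ Real.log M := by
    rcases Nat.eq_zero_or_pos n with rfl | hn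
    · simpa using Real.log_natCast_nonneg M
    · exact Real.log_le_log (by exact_mod_cast hn) (by exact_mod_cast h)
  linarith

lemma sum_DD (q m L : ℕ) (hq : 0 < q) (hm : m ≤ L) (φ : ℝ) (hφ : |φ| ≤ 3 / (4 * q)) :
    ∑ j ∈ range q, DD m (φ + j / q) ≤ 3 * L / (1 + L * |φ|) + 4 * q * (1 + Real.log q) := by
  obtain ⟨r, rfl⟩ : ∃ r, q = r + 1 := ⟨q - 1, by omega⟩
  set q : ℕ := r + 1 with hqdef
  have hq' : (0:ℝ) < q := by exact_mod_cast hq
  have hq1 : (1:ℝ) ≤ q := by exact_mod_cast hq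
  have hφ' : |φ| * q ≤ 3 / 4 := by
    rw [le_div_iff₀ (by positivity)] at hφ; linarith
  rw [sum_range_succ', add_comm]
  refine add_le_add ?_ ?_
  · simp only [Nat.cast_zero, zero_div, add_zero]
    have h1 : DD m φ ≤ L := (DD_le m φ).trans (by exact_mod_cast hm)
    have h2 : DD m φ * (2 * (|φ| / 3)) ≤ 1 := by
      refine DD_mul_le m φ _ (fun n => ?_)
      rcases eq_or_ne n 0 with rfl | hn
      · simp only [Int.cast_zero, sub_zero]; linarith [abs_nonneg φ]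
      · have h3 : (1:ℝ) ≤ |(n:ℝ)| := by exact_mod_cast Int.one_le_abs hn
        have h4 := abs_sub_abs_le_abs_sub (n:ℝ) φ
        rw [abs_sub_comm] at h4
        have h5 : |φ| ≤ 3 / 4 := by nlinarith [abs_nonneg φ]
        linarith
    rw [le_div_iff₀ (by positivity)]
    have h0 := DD_nonneg m φ
    have hL : (0:ℝ) ≤ L := by positivity
    nlinarith [mul_le_mul_of_nonneg_left h2 hL]
  · have hb : ∀ j ∈ range r, DD m (φ + ((j + 1 : ℕ):ℝ) / q)
        ≤ 2 * q * (1 / (1 + (j:ℝ))) + 2 * q * (1 / (1 + ((r - 1 - j : ℕ):ℝ))) := by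
      intro j hj
      rw [mem_range] at hj
      have e1 : ((r - 1 - j : ℕ):ℝ) = q - 2 - j := by
        rw [hqdef, Nat.cast_sub (by omega), Nat.cast_sub (by omega)]; push_cast; ring
      have hjq : (j:ℝ) + 2 ≤ q := by
        rw [hqdef]; exact_mod_cast (by omega : j + 2 ≤ r + 1)
      have hj0 : (0:ℝ) ≤ j := by positivity
      set μ : ℝ := min (1 + j) (q - 1 - j) with hμ
      have hμ1 : 1 ≤ μ := le_min (by linarith) (by linarith)
      have hμa : μ ≤ 1 + j := min_le_left _ _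
      have hμb : μ ≤ q - 1 - j := min_le_right _ _
      have h2 : DD m (φ + ((j + 1 : ℕ):ℝ) / q) * (2 * (μ / (4 * q))) ≤ 1 := by
        refine DD_mul_le m _ _ (fun n => ?_)
        rw [div_le_iff₀ (by positivity)]
        have e2 : |φ + ((j + 1 : ℕ):ℝ) / q - n| * (4 * q) = 4 * |φ * q + (j + 1) - n * q| := by
          rw [show φ * q + (j + 1) - n * q = (φ + ((j + 1 : ℕ):ℝ) / q - n) * q by
            push_cast; field_simp, abs_mul, abs_of_pos hq']; ring
        rw [e2]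
        have h3 : |φ * q| ≤ 3 / 4 := by rw [abs_mul, abs_of_pos hq']; exact hφ'
        have h4 := abs_le.1 h3
        rcases le_or_gt n 0 with hn | hn
        · have : (n:ℝ) ≤ 0 := by exact_mod_cast hn
          have h5 := le_abs_self (φ * q + (j + 1) - n * q)
          nlinarith
        · have : (1:ℝ) ≤ n := by exact_mod_cast hn
          have h5 := neg_abs_le (φ * q + (j + 1) - n * q)
          nlinarith
      have h3 : DD m (φ + ((j + 1 : ℕ):ℝ) / q) ≤ 2 * q * (1 / μ) := by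
        rw [mul_one_div, le_div_iff₀ (by linarith)]
        have : DD m (φ + ((j + 1 : ℕ):ℝ) / q) * (2 * (μ / (4 * q))) * (2 * q) =
          DD m (φ + ((j + 1 : ℕ):ℝ) / q) * μ := by field_simp; ring
        nlinarith
      refine h3.trans ?_
      rw [e1, ← mul_add]
      refine mul_le_mul_of_nonneg_left ?_ (by positivity)
      have p1 : 0 < 1 / (1 + (j:ℝ)) := by positivity
      have p2 : 0 < 1 / (1 + ((q:ℝ) - 2 - j)) := by apply one_div_pos.2; linarith
      rcases min_choice (1 + (j:ℝ)) (q - 1 - j) with h | h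
      · rw [hμ, h]; linarith
      · rw [hμ, h, show (q:ℝ) - 1 - j = 1 + (q - 2 - j) by ring]; linarith
    refine (sum_le_sum hb).trans ?_
    rw [sum_add_distrib, ← mul_sum, ← mul_sum,
      sum_range_reflect (fun j => 1 / (1 + (j:ℝ))) r]
    have := harm_le r q (by omega)
    nlinarith

lemma block (q : ℕ) (hq : 0 < q) (a b : ℤ) (ha : IsUnit (a : ZMod q)) (γ β₁ : ℝ) (t m L : ℕ)
    (hm : m ≤ L) (hγ : |γ| * (L:ℝ) ^ 2 ≤ 1) (hφ : |β₁ + 2 * γ * t| ≤ 3 / (4 * q)) :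
    √q * ‖∑ u ∈ range m, ee ((β₁ + b / q) * ((t + u : ℕ):ℝ) + (γ + a / q) * ((t + u : ℕ):ℝ) ^ 2)‖
      ≤ 16 * (3 * L / (1 + L * |β₁ + 2 * γ * t|) + 4 * q * (1 + Real.log q)) := by
  have : NeZero q := ⟨hq.ne'⟩
  set φ := β₁ + 2 * γ * t with hφdef
  have hs : 0 < √(q:ℝ) := Real.sqrt_pos.2 (by exact_mod_cast hq)
  have e1 : ∑ u ∈ range m, ee ((β₁ + b / q) * ((t + u : ℕ):ℝ) + (γ + a / q) * ((t + u : ℕ):ℝ) ^ 2)
      = ee ((β₁ + b / q) * t + γ * (t:ℝ) ^ 2) * ∑ u ∈ range m,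
        (ee (a * ((t + u : ℕ):ℝ) ^ 2 / q) * ee ((φ + b / q) * u)) * ee (γ * (u:ℝ) ^ 2) := by
    rw [mul_sum]
    refine sum_congr rfl (fun u _ => ?_)
    rw [← ee_add, ← ee_add, ← ee_add]; congr 1
    rw [hφdef]; push_cast; ring
  rw [e1, norm_mul, norm_ee, one_mul]
  have h2 := abel_quad (fun u => ee (a * ((t + u : ℕ):ℝ) ^ 2 / q) * ee ((φ + b / q) * u))
    (2 * (3 * L / (1 + L * |φ|) + 4 * q * (1 + Real.log q)) / √q) γ m
    (le_trans (mul_le_mul_of_nonneg_left (by gcongr) (abs_nonneg _)) hγ) (fun k hk => by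
      rw [le_div_iff₀ hs, mul_comm]
      refine (complete a b ha t k φ).trans ?_
      exact mul_le_mul_of_nonneg_left (sum_DD q k L hq (hk.trans hm) φ hφ) (by norm_num))
  calc √(q:ℝ) * _ ≤ √q * (8 * (2 * (3 * L / (1 + L * |φ|) + 4 * q * (1 + Real.log q)) / √q)) :=
        mul_le_mul_of_nonneg_left h2 hs.le
    _ = _ := by field_simp; ring

lemma norm_sum_blocks (g : ℕ → ℂ) (B : ℕ → ℝ) (L : ℕ) (K : ℕ) :
    ∀ N ≤ K * L, (∀ k < K, ∀ m ≤ L, ‖∑ u ∈ range m, g (k * L + u)‖ ≤ B k) →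
      ‖∑ n ∈ range N, g n‖ ≤ ∑ k ∈ range K, B k := by
  induction K with
  | zero => intro N hN _; have : N = 0 := by omega
            subst this; simp
  | succ K ih =>
    intro N hN h
    rw [sum_range_succ]
    have hB : 0 ≤ B K := by simpa using h K (by omega) 0 (by omega)
    rcases le_or_gt N (K * L) with h1 | h1
    · have := ih N h1 (fun k hk => h k (by omega))
      linarith
    · obtain ⟨m, rfl⟩ : ∃ m, N = K * L + m := ⟨N - K * L, by omega⟩
      rw [sum_range_add]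
      refine (norm_add_le _ _).trans (add_le_add (ih _ le_rfl (fun k hk => h k (by omega))) ?_)
      refine h K (by omega) m ?_
      rw [Nat.succ_mul] at hN; omega

lemma capsum (K M : ℕ) (hK : K ≤ M) (k₀ : ℝ) :
    ∑ k ∈ range K, 1 / (1 + |(k:ℝ) - k₀|) ≤ 4 * (1 + Real.log M) := by
  set n : ℕ := min K ⌊k₀⌋₊ with hn
  have hnK : n ≤ K := min_le_left _ _
  have h1 : ∀ k ∈ range K, 1 / (1 + |(k:ℝ) - k₀|) ≤ 2 * (1 / (1 + |(k:ℝ) - n|)) := by
    intro k hk
    rw [mem_range] at hk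
    have hk' : (k:ℝ) < K := by exact_mod_cast hk
    have hk0 : (0:ℝ) ≤ k := by positivity
    have h2 : |(k:ℝ) - n| ≤ |(k:ℝ) - k₀| + 1 := by
      have a1 := le_abs_self ((k:ℝ) - k₀)
      have a2 := neg_abs_le ((k:ℝ) - k₀)
      have a3 := abs_nonneg ((k:ℝ) - k₀)
      have b1 := Nat.lt_floor_add_one k₀
      rcases le_or_gt 0 k₀ with h0 | h0
      · have b2 := Nat.floor_le h0
        rcases le_total K ⌊k₀⌋₊ with h | h
        · have : n = K := min_eq_left h
          have h' : (K:ℝ) ≤ ⌊k₀⌋₊ := by exact_mod_cast h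
          rw [this, abs_le]; constructor <;> linarith
        · have : n = ⌊k₀⌋₊ := min_eq_right h
          rw [this, abs_le]; constructor <;> linarith
      · have : n = 0 := by rw [hn, Nat.floor_of_nonpos h0.le]; simp
        rw [this, abs_le]; simp only [Nat.cast_zero]; constructor <;> linarith
    rw [mul_one_div, div_le_div_iff₀ (by positivity) (by positivity)]
    linarith [abs_nonneg ((k:ℝ) - k₀)]
  refine (sum_le_sum h1).trans ?_
  rw [← mul_sum]
  obtain ⟨r, hr⟩ : ∃ r, K = n + r := ⟨K - n, by omega⟩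
  have h3 : ∑ k ∈ range K, 1 / (1 + |(k:ℝ) - n|) ≤ 2 * (1 + Real.log M) := by
    conv_lhs => rw [hr]
    rw [sum_range_add, ← sum_range_reflect _ n]
    have a1 : ∑ j ∈ range n, 1 / (1 + |((n - 1 - j : ℕ):ℝ) - n|) ≤ 1 + Real.log M := by
      refine le_trans (sum_le_sum (fun j hj => ?_)) (harm_le n M (by omega))
      rw [mem_range] at hj
      rw [Nat.cast_sub (by omega), Nat.cast_sub (by omega)]
      have : (0:ℝ) ≤ j := by positivity
      rw [show (n:ℝ) - (1:ℕ) - j - n = -(1 + j) by push_cast; ring, abs_neg,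
        abs_of_pos (by positivity)]
      exact one_div_le_one_div_of_le (by positivity) (by linarith)
    have a2 : ∑ j ∈ range r, 1 / (1 + |((n + j : ℕ):ℝ) - n|) ≤ 1 + Real.log M := by
      refine le_trans (le_of_eq (sum_congr rfl (fun j _ => ?_))) (harm_le r M (by omega))
      push_cast
      rw [add_sub_cancel_left, abs_of_nonneg (by positivity)]
    linarith
  linarith

noncomputable def SS (N : ℕ) (α β : ℝ) : ℂ :=
  ∑ n ∈ range N, ee (α * ((n + 1 : ℕ):ℝ) + β * ((n + 1 : ℕ):ℝ) ^ 2)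

lemma norm_SS_le (N : ℕ) (α β : ℝ) : ‖SS N α β‖ ≤ N := by
  unfold SS
  refine (norm_sum_le _ _).trans ?_
  simp [norm_ee]

lemma exists_L (N : ℕ) (hN : 0 < N) (γ : ℝ) (hγ : |γ| ≤ 1) :
    ∃ L : ℕ, 0 < L ∧ L ≤ N ∧ |γ| * (L:ℝ) ^ 2 ≤ 1 ∧ (L = N ∨ 1 ≤ 4 * (|γ| * (L:ℝ) ^ 2)) := by
  classical
  set P : ℕ → Prop := fun L => |γ| * (L:ℝ) ^ 2 ≤ 1 with hP
  have h1 : P 1 := by simpa [hP] using hγ
  have hL1 : 1 ≤ Nat.findGreatest P N := Nat.le_findGreatest hN h1
  refine ⟨Nat.findGreatest P N, hL1, Nat.findGreatest_le N, Nat.findGreatest_spec hN h1, ?_⟩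
  by_cases h : Nat.findGreatest P N = N
  · exact Or.inl h
  · right
    have h2 : ¬ P (Nat.findGreatest P N + 1) :=
      Nat.findGreatest_is_greatest (n := N) (by omega)
        (by have := Nat.findGreatest_le (P := P) N; omega)
    simp only [hP, not_le] at h2
    push_cast at h2
    have h3 : (1:ℝ) ≤ (Nat.findGreatest P N : ℕ) := by exact_mod_cast hL1
    generalize ((Nat.findGreatest P N : ℕ) : ℝ) = x at h2 h3 ⊢
    have h4 : (x + 1) ^ 2 ≤ 4 * x ^ 2 := by nlinarith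
    nlinarith [mul_le_mul_of_nonneg_left h4 (abs_nonneg γ)]

/-- structure of large quadratic Weyl sums -/
theorem structure_thm (N : ℕ) (hN : 0 < N) (α β : ℝ) (ℓ : ℝ) (hℓ : 1 + Real.log (8 * N) ≤ ℓ)
    (V : ℝ) (hV : V = ‖SS N α β‖) (hbig : 3000 * ℓ * √N < V) :
    ∃ q : ℕ, 0 < q ∧ ∃ a b : ℤ, q * V ^ 2 ≤ (3000 * ℓ * N) ^ 2 ∧
      |β - a / q| * q * N ^ 2 * V ^ 2 ≤ (3000 * ℓ * N) ^ 2 ∧
      |α - b / q| * q * N * V ^ 2 ≤ (3000 * ℓ * N) ^ 2 := by
  obtain ⟨r, hr1, hr2⟩ := Real.exists_rat_abs_sub_le_and_den_le β (n := 8 * N) (by omega)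
  set q : ℕ := r.den with hqdef
  have hq : 0 < q := r.den_pos
  have hq' : (0:ℝ) < q := by exact_mod_cast hq
  have hq1 : (1:ℝ) ≤ q := by exact_mod_cast hq
  have hN' : (1:ℝ) ≤ N := by exact_mod_cast hN
  have hqN : (q:ℝ) ≤ 8 * N := by exact_mod_cast hr2
  set a : ℤ := r.num with hadef
  have hra : (r:ℝ) = a / q := by rw [hadef, hqdef]; exact Rat.cast_def r
  have ha : IsUnit (a : ZMod q) := by
    rw [ZMod.coe_int_isUnit_iff_isCoprime]
    rw [Int.isCoprime_iff_gcd_eq_one, Int.gcd_comm]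
    exact r.reduced
  set b : ℤ := round (q * α) with hbdef
  set γ : ℝ := β - a / q with hγdef
  set β₁ : ℝ := α - b / q with hβ₁def
  have hγq : |γ| * q * (8 * N) ≤ 1 := by
    rw [hra, le_div_iff₀ (by positivity)] at hr1
    push_cast at hr1
    nlinarith [mul_nonneg (abs_nonneg γ) hq'.le]
  have hβq : |β₁| * q ≤ 1 / 2 := by
    have := abs_sub_round (q * α)
    rw [← hbdef, show q * α - (b : ℝ) = β₁ * q by rw [hβ₁def]; field_simp, abs_mul,
      abs_of_pos hq'] at this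
    exact this
  have hγ0 := abs_nonneg γ
  have hγ1 : |γ| ≤ 1 := by
    have : |γ| * 1 * 1 ≤ |γ| * q * (8 * N) := by gcongr; linarith
    linarith
  obtain ⟨L, hL0, hLN, hL1, hL2⟩ := exists_L N hN γ hγ1
  have hL' : (1:ℝ) ≤ L := by exact_mod_cast hL0
  have hLN' : (L:ℝ) ≤ N := by exact_mod_cast hLN
  set K : ℕ := (N - 1) / L + 1 with hKdef
  have hKL1 : N ≤ K * L := by
    have := Nat.lt_div_mul_add (a := N - 1) hL0
    rw [hKdef, Nat.succ_mul]; omega
  have hKL2 : (N - 1) / L * L ≤ N - 1 := Nat.div_mul_le_self _ _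
  have hKL3 : K * L ≤ 2 * N := by rw [hKdef, Nat.succ_mul]; omega
  have hKL3' : (K:ℝ) * L ≤ 2 * N := by exact_mod_cast hKL3
  have hK8 : K ≤ 8 * N := by
    have : K * 1 ≤ K * L := Nat.mul_le_mul_left _ hL0
    omega
  have ht : ∀ k < K, ((k * L + 1 : ℕ):ℝ) ≤ N := by
    intro k hk
    have : k * L ≤ (N - 1) / L * L := Nat.mul_le_mul_right _ (by omega)
    exact_mod_cast (by omega : k * L + 1 ≤ N)
  have hlog8 : 0 ≤ Real.log (8 * N) := Real.log_nonneg (by linarith)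
  have hℓ1 : 1 ≤ ℓ := by linarith
  have hlogq : 1 + Real.log q ≤ ℓ := by
    have := Real.log_le_log hq' hqN; linarith
  have hs : 0 < √(q:ℝ) := Real.sqrt_pos.2 hq'
  have hss : √(q:ℝ) * √q = q := Real.mul_self_sqrt hq'.le
  have hsN : 0 < √(N:ℝ) := Real.sqrt_pos.2 (by linarith)
  have hssN : √(N:ℝ) * √N = N := Real.mul_self_sqrt (by linarith)
  set cap : ℕ → ℝ := fun k => 3 * L / (1 + L * |β₁ + 2 * γ * ((k * L + 1 : ℕ):ℝ)|) with hcap
  have hγt : ∀ k < K, |2 * γ * ((k * L + 1 : ℕ):ℝ)| ≤ 2 * |γ| * N := by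
    intro k hk
    rw [abs_mul, abs_mul, abs_two, Nat.abs_cast]
    exact mul_le_mul_of_nonneg_left (ht k hk) (by positivity)
  -- the main inequality
  have hmain : √q * V ≤ 16 * ∑ k ∈ range K, cap k + 64 * (K * q) * ℓ := by
    have h1 := norm_sum_blocks
      (fun n => ee (α * ((n + 1 : ℕ):ℝ) + β * ((n + 1 : ℕ):ℝ) ^ 2))
      (fun k => 16 * (cap k + 4 * q * ℓ) / √q) L K N hKL1 (fun k hk m hm => by
        rw [le_div_iff₀ hs, mul_comm]
        have hφ : |β₁ + 2 * γ * ((k * L + 1 : ℕ):ℝ)| ≤ 3 / (4 * q) := by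
          rw [le_div_iff₀ (by positivity)]
          have := (abs_add_le β₁ _).trans (add_le_add_right (hγt k hk) _)
          nlinarith
        have h2 := block q hq a b ha γ β₁ (k * L + 1) m L hm hL1 hφ
        have e1 : β₁ + b / q = α := by rw [hβ₁def]; ring
        have e2 : γ + a / q = β := by rw [hγdef]; ring
        rw [e1, e2] at h2
        have e3 : ∀ u, k * L + 1 + u = k * L + u + 1 := fun u => by ring
        simp only [e3] at h2
        refine h2.trans ?_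
        simp only [hcap]
        gcongr)
    rw [← sum_div, le_div_iff₀ hs, ← mul_sum, sum_add_distrib, sum_const, card_range,
      nsmul_eq_mul] at h1
    rw [hV, SS, mul_comm]
    linarith
  -- the error term
  have hKq : K * √q ≤ 3 * √N := by
    rcases hL2 with h | h
    · have : K = 1 := by
        rw [hKdef, h, Nat.div_eq_of_lt (by omega)]
      rw [this, Nat.cast_one, one_mul]
      exact abs_le_of_sq_le_sq' (by nlinarith) (by positivity) |>.2
    · refine abs_le_of_sq_le_sq' ?_ (by positivity) |>.2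
      have e1 : ((K:ℝ) * √q) ^ 2 = K ^ 2 * q := by rw [mul_pow, sq (√(q:ℝ)), hss]
      have e2 : (3 * √(N:ℝ)) ^ 2 = 9 * N := by rw [mul_pow, sq (√(N:ℝ)), hssN]; norm_num
      rw [e1, e2]
      have h3 : ((K:ℝ) * L) ^ 2 ≤ (2 * N) ^ 2 := by gcongr
      have h4 : (K:ℝ) ^ 2 * q ≤ K ^ 2 * q * (4 * (|γ| * (L:ℝ) ^ 2)) :=
        le_mul_of_one_le_right (by positivity) h
      have h5 : (K:ℝ) ^ 2 * q * (4 * (|γ| * (L:ℝ) ^ 2)) = 4 * (|γ| * q) * (K * L) ^ 2 := by ring
      have h6 : 4 * (|γ| * q) * ((K:ℝ) * L) ^ 2 ≤ 4 * (|γ| * q) * (2 * N) ^ 2 := by gcongr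
      have h7 : 4 * (|γ| * q) * (2 * (N:ℝ)) ^ 2 = 2 * N * (|γ| * q * (8 * N)) := by ring
      have h8 : 2 * N * (|γ| * q * (8 * N)) ≤ 2 * (N:ℝ) * 1 := by gcongr
      linarith
  have hV0 : 0 < V := lt_of_le_of_lt (by positivity) hbig
  have hmain2 : √q * V ≤ 32 * ∑ k ∈ range K, cap k := by
    have h1 : 64 * ((K:ℝ) * q) * ℓ ≤ √q * (192 * ℓ * √N) := by
      have : (K:ℝ) * q = √q * (K * √q) := by rw [← mul_assoc, mul_comm _ (K:ℝ), mul_assoc, hss]
      rw [this]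
      have := mul_le_mul_of_nonneg_left hKq (by positivity : 0 ≤ 64 * √(q:ℝ) * ℓ)
      linarith
    have h2 : √q * (192 * ℓ * √N) ≤ √q * (V / 2) := by
      refine mul_le_mul_of_nonneg_left ?_ hs.le
      have : 0 ≤ ℓ * √N := by positivity
      linarith
    linarith
  -- bound (i)
  have hi : ∑ k ∈ range K, cap k ≤ 24 * L * ℓ := by
    rcases hL2 with h | h
    · have : K = 1 := by
        rw [hKdef, h, Nat.div_eq_of_lt (by omega)]
      rw [this, sum_range_one]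
      simp only [hcap]
      rw [div_le_iff₀ (by positivity)]
      have : 0 ≤ (L:ℝ) * |β₁ + 2 * γ * ((0 * L + 1 : ℕ):ℝ)| := by positivity
      nlinarith [mul_nonneg (by positivity : (0:ℝ) ≤ 24 * L * ℓ) this]
    · have hγne : γ ≠ 0 := by
        rintro h0; rw [h0] at h; norm_num at h
      set k₀ : ℝ := -(β₁ + 2 * γ) / (2 * γ * L) with hk₀
      have h1 : ∀ k ∈ range K, cap k ≤ 6 * L * (1 / (1 + |(k:ℝ) - k₀|)) := by
        intro k _
        simp only [hcap]
        have e1 : β₁ + 2 * γ * ((k * L + 1 : ℕ):ℝ) = 2 * γ * L * (k - k₀) := by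
          rw [hk₀]; push_cast; field_simp; ring
        rw [e1, abs_mul, abs_mul, abs_mul, abs_two, Nat.abs_cast, mul_one_div,
          div_le_div_iff₀ (by positivity) (by positivity)]
        have h2 := abs_nonneg ((k:ℝ) - k₀)
        have h3 : |(k:ℝ) - k₀| ≤ 4 * (|γ| * (L:ℝ) ^ 2) * |(k:ℝ) - k₀| :=
          le_mul_of_one_le_left h2 h
        nlinarith [mul_le_mul_of_nonneg_left h3 (by positivity : (0:ℝ) ≤ L)]
      refine (sum_le_sum h1).trans ?_
      rw [← mul_sum]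
      have h2 := capsum K (8 * N) hK8 k₀
      push_cast at h2
      have h3 : ∑ k ∈ range K, 1 / (1 + |(k:ℝ) - k₀|) ≤ 4 * ℓ := by linarith
      nlinarith
  have hA : √q * V ≤ 768 * L * ℓ := by linarith
  have hA2 : q * V ^ 2 ≤ (768 * L * ℓ) ^ 2 := by
    have : (√q * V) ^ 2 ≤ (768 * L * ℓ) ^ 2 := by gcongr
    rwa [mul_pow, sq (√(q:ℝ)), hss] at this
  have hB : |γ| * q * N ^ 2 * V ^ 2 ≤ (768 * ℓ * N) ^ 2 := by
    calc |γ| * q * N ^ 2 * V ^ 2 = |γ| * N ^ 2 * (q * V ^ 2) := by ring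
      _ ≤ |γ| * N ^ 2 * (768 * L * ℓ) ^ 2 := by gcongr
      _ = (768 * ℓ * N) ^ 2 * (|γ| * (L:ℝ) ^ 2) := by ring
      _ ≤ (768 * ℓ * N) ^ 2 * 1 := by gcongr
      _ = _ := mul_one _
  have hsq : 0 ≤ (ℓ * N) ^ 2 := by positivity
  refine ⟨q, hq, a, b, ?_, ?_, ?_⟩
  · refine hA2.trans ?_
    have : 768 * L * ℓ ≤ 3000 * ℓ * N := by nlinarith
    gcongr
  · refine hB.trans ?_
    nlinarith
  · rcases le_or_gt (|β₁|) (8 * |γ| * N) with h | h
    · calc |β₁| * q * N * V ^ 2 ≤ (8 * |γ| * N) * q * N * V ^ 2 := by gcongr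
        _ = 8 * (|γ| * q * N ^ 2 * V ^ 2) := by ring
        _ ≤ 8 * (768 * ℓ * N) ^ 2 := by gcongr
        _ ≤ _ := by nlinarith
    · have hb0 : 0 < |β₁| := lt_of_le_of_lt (by positivity) h
      have h1 : ∀ k ∈ range K, cap k ≤ 4 / |β₁| := by
        intro k hk
        rw [mem_range] at hk
        simp only [hcap]
        rw [div_le_div_iff₀ (by positivity) hb0]
        have h2 := hγt k hk
        have h3 := abs_sub_abs_le_abs_sub β₁ (-(2 * γ * ((k * L + 1 : ℕ):ℝ)))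
        rw [abs_neg, sub_neg_eq_add] at h3
        have h4 : 3 * |β₁| ≤ 4 * |β₁ + 2 * γ * ((k * L + 1 : ℕ):ℝ)| := by linarith
        nlinarith [mul_le_mul_of_nonneg_left h4 (by positivity : (0:ℝ) ≤ L)]
      have h2 := sum_le_sum h1
      rw [sum_const, card_range, nsmul_eq_mul] at h2
      have h3 : √q * V * |β₁| ≤ 128 * K := by
        have : √q * V ≤ 128 * K / |β₁| := by
          calc √q * V ≤ 32 * (K * (4 / |β₁|)) := by linarith
            _ = _ := by ring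
        rwa [le_div_iff₀ hb0] at this
      have h4 : (√q * V * |β₁|) * (√q * V) ≤ (128 * K) * (768 * L * ℓ) := by gcongr
      have h5 : (√q * V * |β₁|) * (√q * V) = |β₁| * q * V ^ 2 := by
        rw [← hss]; rw [Real.sqrt_mul_self hs.le]; ring
      have h6 : (128 * (K:ℝ)) * (768 * L * ℓ) ≤ 128 * 768 * 2 * N * ℓ := by
        have := mul_le_mul_of_nonneg_left hKL3' (by positivity : 0 ≤ 128 * 768 * ℓ)
        linarith
      have h7 : |β₁| * q * V ^ 2 ≤ 128 * 768 * 2 * N * ℓ := by linarith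
      calc |β₁| * q * N * V ^ 2 = (|β₁| * q * V ^ 2) * N := by ring
        _ ≤ (128 * 768 * 2 * N * ℓ) * N := by gcongr
        _ ≤ (128 * 768 * 2 * N * ℓ) * N * ℓ := le_mul_of_one_le_right (by positivity) hℓ1
        _ ≤ _ := by nlinarith

end Pool.Agent.Lib.MP_4e7873_nt
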